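import Pool.Agent.K4H40.NS.Spec
import Pool.Agent.K4H40.NS.Fin

/-!
Assembly of the pieces (backup).
-/

set_option autoImplicit false

namespace Pool.Agent.K4H49.NS

open MvPolynomial Module Pool.Agent.K4H40.NS

theorem rank_eq {V : Type} {K : Type} [Field K] [AddCommGroup V] [Module K V] (A B : Submodule K V)
    [FiniteDimensional K A] [FiniteDimensional K B] :
    finrank K (A ⊔ B : Submodule K V) + finrank K (A ⊓ B : Submodule K V)
      = finrank K A + finrank K B := Submodule.finrank_sup_add_finrank_inf_eq A B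

theorem asm (hsrh : StSRH) (hnb : StNB) (hm1 : StM1) (hdec : StDEC) (hreg : StREG) (hlin : StLIN)
    (hdim : StDIM) (hphi : StPHI) (hrank : StRANK) (hd3 : StD3) (hd4 : StD4)
    {n k : ℕ} (hk : 1 ≤ k) (hn : 2 * k + 3 ≤ n) (Δ : Cplx n) (hΔ : Neighborly k Δ)
    {K : Type} [Field K] (s : Sys n k K (SR K Δ)) :
    mcount Δ (k + 1) + 1 ≠ (n - k - 3).choose k ∧ mcount Δ (k + 1) ≤ (n - k - 3).choose k := by
  have hH := hsrh K Δ
  have hN : Id (SR K Δ) k = ⊥ := hnb K Δ k (by omega) hΔ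
  have hJk : s.Jd k = s.Th (k - 1) := by
    obtain ⟨j, rfl⟩ : ∃ j, k = j + 1 := ⟨k - 1, by omega⟩
    rw [hdec s hH j, hN, bot_sup_eq]
    rfl
  have hJ1 := hdec s hH k
  have hJ2 : s.Jd (k + 2) = Id (SR K Δ) (k + 2) ⊔ s.Th (k + 1) := hdec s hH (k + 1)
  have hR : Id (SR K Δ) (k + 2) ⊓ s.Th (k + 1) ≤ RI (SR K Δ) (k + 1) := hreg s hH (k + 1)
  have hphi' := hphi s
  obtain ⟨hle, hne⟩ := hrank s hphi' hJ1
  have e3 := hd3 s hphi' hJ1
  have e4 := hd4 s hk hJk
  have e1 : finrank K (Id (SR K Δ) (k + 2)) = finrank K (RI (SR K Δ) (k + 1)) + mcount Δ (k + 1) :=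
    hm1 K Δ (k + 1)
  have hl := hlin s hH hn hk hN
  have e5 := hdim (Fin.cons s.ω s.θ : Fin (2 * k + 1 + 1) → R n K) (by
    intro i
    refine Fin.cases ?_ (fun i => ?_) i
    · exact s.ω_lin
    · exact s.θ_lin i) hl (by omega) (k - 1)
  have hV : Submodule.span K {p | ∃ i, ∃ f ∈ hs n K (k - 1),
      p = (Fin.cons s.ω s.θ : Fin (2 * k + 1 + 1) → R n K) i * f} = s.V := by
    unfold Sys.V Sys.Th
    apply le_antisymm
    · refine Submodule.span_le.2 ?_
      rintro _ ⟨i, f, hf, rfl⟩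
      refine Fin.cases ?_ (fun i => ?_) i
      · exact Submodule.mem_sup_left ⟨f, hf, rfl⟩
      · exact Submodule.mem_sup_right (Submodule.subset_span ⟨i, f, hf, rfl⟩)
    · refine sup_le ?_ (Submodule.span_le.2 ?_)
      · rintro _ ⟨f, hf, rfl⟩
        exact Submodule.subset_span ⟨0, f, hf, rfl⟩
      · rintro _ ⟨i, f, hf, rfl⟩
        exact Submodule.subset_span ⟨i.succ, f, hf, rfl⟩
  rw [hV, show k - 1 + 1 = k by omega, show n - (2 * k + 1 + 1) + (k - 1) = n - k - 3 by omega] at e5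
  -- dimension of the spaces
  haveI f2 := hs_finite n K (k + 2)
  have hmul : ∀ {i j d : ℕ} {a b : R n K}, i + j = d → a ∈ hs n K i → b ∈ hs n K j → a * b ∈ hs n K d := by
    rintro i j _ a b rfl ha hb
    rw [mem_homogeneousSubmodule] at *
    exact ha.mul hb
  have g1 : Id (SR K Δ) (k + 2) ≤ hs n K (k + 2) := inf_le_right
  have g2 : s.Th (k + 1) ≤ hs n K (k + 2) := by
    refine Submodule.span_le.2 ?_
    rintro _ ⟨i, f, hf, rfl⟩
    exact hmul (by omega) (s.θ_lin i) hf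
  have g3 : RI (SR K Δ) (k + 1) ≤ Id (SR K Δ) (k + 2) := by
    refine Submodule.span_le.2 ?_
    rintro _ ⟨x, hx, f, hf, rfl⟩
    exact ⟨Ideal.mul_mem_left _ _ hf.1, hmul (by omega) hx hf.2⟩
  haveI i1 := Submodule.finiteDimensional_of_le g1
  haveI i2 := Submodule.finiteDimensional_of_le g2
  haveI i3 := Submodule.finiteDimensional_of_le g3
  have r1 := rank_eq (Id (SR K Δ) (k + 2)) (s.Th (k + 1))
  have r2 := rank_eq (RI (SR K Δ) (k + 1)) (s.Th (k + 1))
  have r3 : Id (SR K Δ) (k + 2) ⊓ s.Th (k + 1) = RI (SR K Δ) (k + 1) ⊓ s.Th (k + 1) :=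
    le_antisymm (le_inf hR inf_le_right) (inf_le_inf_right _ g3)
  rw [← hJ2] at r1
  have r4 : s.P = RI (SR K Δ) (k + 1) ⊔ s.Th (k + 1) := rfl
  rw [← r4, ← r3] at r2
  haveI f1 := hs_finite n K (k + 1)
  haveI i4 : FiniteDimensional K s.KP := Submodule.finiteDimensional_of_le
    (inf_le_right : s.KP ≤ hs n K (k + 1))
  have r5 := Submodule.finrank_mono hle
  constructor
  · intro h
    apply hne
    omega
  · omega

end Pool.Agent.K4H49.NS
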