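import Pool.Agent.K4H40.NS.Spec

/-!
Piece KEY: if `KP` is not in `J` then some Koszul element is not in `J`.
-/

set_option autoImplicit false

namespace Pool.Agent.K4H49.NS

open MvPolynomial Module Pool.Agent.K4H40.NS

noncomputable section

variable {n k : ℕ} {K : Type} [Field K] {I : Ideal (R n K)}

open Classical in
/-- chosen quotient by `ω` of a monomial of degree `k + 1` -/
def av (s : Sys n k K I)
    (H : ∀ f ∈ hs n K (k + 1), ∃ a ∈ hs n K k, f - s.ω * a ∈ s.J)
    (e : Fin n →₀ ℕ) : R n K :=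
  if h : (monomial e (1 : K)) ∈ hs n K (k + 1) then Classical.choose (H _ h) else 0

theorem av_mem (s : Sys n k K I)
    (H : ∀ f ∈ hs n K (k + 1), ∃ a ∈ hs n K k, f - s.ω * a ∈ s.J)
    (e : Fin n →₀ ℕ) : av s H e ∈ hs n K k := by
  unfold av
  split_ifs with h
  · exact (Classical.choose_spec (H _ h)).1
  · exact Submodule.zero_mem _

theorem av_spec (s : Sys n k K I)
    (H : ∀ f ∈ hs n K (k + 1), ∃ a ∈ hs n K k, f - s.ω * a ∈ s.J)
    (e : Fin n →₀ ℕ) (h : (monomial e (1 : K)) ∈ hs n K (k + 1)) :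
    monomial e (1 : K) - s.ω * av s H e ∈ s.J := by
  unfold av
  rw [dif_pos h]
  exact (Classical.choose_spec (H _ h)).2

theorem mon_mem {d : ℕ} {e : Fin n →₀ ℕ} (h : e.degree = d) :
    (monomial e (1 : K)) ∈ hs n K d := by
  rw [mem_homogeneousSubmodule]
  exact isHomogeneous_monomial _ h

/-- induction on homogeneous polynomials -/
theorem hom_induction {d : ℕ} (S : Submodule K (R n K))
    (h : ∀ e : Fin n →₀ ℕ, e.degree = d → monomial e (1 : K) ∈ S) :
    ∀ f ∈ hs n K d, f ∈ S := by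
  intro f hf
  rw [f.as_sum]
  refine Submodule.sum_mem _ fun e he => ?_
  have h1 : e.degree = d := by
    have := (mem_homogeneousSubmodule d f).1 hf (mem_support_iff.1 he)
    rw [Finsupp.degree_eq_weight_one, ← Pi.one_def]
    exact this
  have h2 : monomial e (coeff e f) = (coeff e f) • monomial e (1 : K) := by
    rw [smul_monomial, smul_eq_mul, mul_one]
  rw [h2]
  exact S.smul_mem _ (h e h1)

open Classical in
/-- a variable in the support -/
def lv (e : Fin n →₀ ℕ) (h : e ≠ 0) : Fin n := (Finsupp.support_nonempty_iff.2 h).choose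

theorem lv_spec (e : Fin n →₀ ℕ) (h : e ≠ 0) : e (lv e h) ≠ 0 :=
  Finsupp.mem_support_iff.1 (Finsupp.support_nonempty_iff.2 h).choose_spec

open Classical in
/-- values of `B` on monomials -/
def bv (s : Sys n k K I)
    (H : ∀ f ∈ hs n K (k + 1), ∃ a ∈ hs n K k, f - s.ω * a ∈ s.J)
    (e : Fin n →₀ ℕ) : R n K :=
  if h : e ≠ 0 then X (lv e h) * av s H (e - Finsupp.single (lv e h) 1) else 0

/-- the linear map `A` -/
def A (s : Sys n k K I)
    (H : ∀ f ∈ hs n K (k + 1), ∃ a ∈ hs n K k, f - s.ω * a ∈ s.J) : R n K →ₗ[K] R n K :=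
  (basisMonomials (Fin n) K).constr K (av s H)

/-- the linear map `B` -/
def B (s : Sys n k K I)
    (H : ∀ f ∈ hs n K (k + 1), ∃ a ∈ hs n K k, f - s.ω * a ∈ s.J) : R n K →ₗ[K] R n K :=
  (basisMonomials (Fin n) K).constr K (bv s H)

theorem A_mon (s : Sys n k K I)
    (H : ∀ f ∈ hs n K (k + 1), ∃ a ∈ hs n K k, f - s.ω * a ∈ s.J) (e : Fin n →₀ ℕ) :
    A s H (monomial e 1) = av s H e := by
  have := (basisMonomials (Fin n) K).constr_basis K (av s H) e
  rw [coe_basisMonomials] at this
  exact this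

theorem B_mon (s : Sys n k K I)
    (H : ∀ f ∈ hs n K (k + 1), ∃ a ∈ hs n K k, f - s.ω * a ∈ s.J) (e : Fin n →₀ ℕ) :
    B s H (monomial e 1) = bv s H e := by
  have := (basisMonomials (Fin n) K).constr_basis K (bv s H) e
  rw [coe_basisMonomials] at this
  exact this

theorem A_spec (s : Sys n k K I)
    (H : ∀ f ∈ hs n K (k + 1), ∃ a ∈ hs n K k, f - s.ω * a ∈ s.J) :
    ∀ f ∈ hs n K (k + 1), f - s.ω * A s H f ∈ s.J := by
  refine hom_induction ((s.J.restrictScalars K).comap
    (LinearMap.id - (LinearMap.mulLeft K s.ω) ∘ₗ A s H)) ?_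
  intro e he
  show monomial e (1 : K) - s.ω * A s H (monomial e 1) ∈ s.J
  rw [A_mon]
  exact av_spec s H e (mon_mem he)

theorem A_mem (s : Sys n k K I)
    (H : ∀ f ∈ hs n K (k + 1), ∃ a ∈ hs n K k, f - s.ω * a ∈ s.J) :
    ∀ f ∈ hs n K (k + 1), A s H f ∈ hs n K k := by
  refine hom_induction ((hs n K k).comap (A s H)) ?_
  intro e he
  show A s H (monomial e 1) ∈ hs n K k
  rw [A_mon]
  exact av_mem s H e

theorem B_spec (s : Sys n k K I)
    (H : ∀ f ∈ hs n K (k + 1), ∃ a ∈ hs n K k, f - s.ω * a ∈ s.J)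
    (hc : ∀ x ∈ hs n K 1, ∀ y ∈ hs n K 1, ∀ g ∈ hs n K k, ∀ p ∈ hs n K k, ∀ q ∈ hs n K k,
      y * g - s.ω * p ∈ s.J → x * g - s.ω * q ∈ s.J → x * p - y * q ∈ s.J) :
    ∀ x ∈ hs n K 1, ∀ f ∈ hs n K (k + 1), B s H (x * f) - x * A s H f ∈ s.J := by
  intro x hx f hf
  revert x
  refine hom_induction ((s.J.restrictScalars K).comap
    (B s H ∘ₗ (LinearMap.mulRight K f) - (LinearMap.mulRight K (A s H f)))) ?_
  intro e1 he1
  show B s H (monomial e1 1 * f) - monomial e1 1 * A s H f ∈ s.J
  revert f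
  refine hom_induction ((s.J.restrictScalars K).comap
    (B s H ∘ₗ (LinearMap.mulLeft K (monomial e1 1)) -
      (LinearMap.mulLeft K (monomial e1 1)) ∘ₗ A s H)) ?_
  intro e' he'
  show B s H (monomial e1 1 * monomial e' 1) - monomial e1 1 * A s H (monomial e' 1) ∈ s.J
  obtain ⟨l, rfl⟩ : ∃ l, e1 = Finsupp.single l 1 := by
    have : e1 ≠ 0 := by
      rintro rfl
      simp at he1
    refine ⟨lv e1 this, ?_⟩
    have h1 := lv_spec e1 this
    set l := lv e1 this
    have h2 : Finsupp.single l 1 ≤ e1 := by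
      rw [Finsupp.single_le_iff]; omega
    obtain ⟨c, hc⟩ := exists_add_of_le h2
    have h3 : c.degree = 0 := by
      have := congrArg Finsupp.degree hc
      rw [map_add, he1, Finsupp.degree_single] at this
      omega
    rw [(Finsupp.degree_eq_zero_iff c).1 h3, add_zero] at hc
    exact hc
  rw [A_mon]
  have hmul : (monomial (Finsupp.single l 1) (1 : K)) * monomial e' 1
      = monomial (Finsupp.single l 1 + e') 1 := by
    rw [monomial_mul, one_mul]
  rw [hmul, B_mon]
  have hne : Finsupp.single l 1 + e' ≠ 0 := by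
    intro h
    have := congrArg Finsupp.degree h
    rw [map_add, Finsupp.degree_single, map_zero] at this
    omega
  unfold bv
  rw [dif_pos hne]
  have hm := lv_spec _ hne
  set m := lv _ hne with hmdef
  by_cases hlm : m = l
  · rw [hlm, add_tsub_cancel_left]
    rw [show (X l : R n K) = monomial (Finsupp.single l 1) 1 from rfl, sub_self]
    exact Ideal.zero_mem _
  · have h1 : e' m ≠ 0 := by
      rw [Finsupp.add_apply, Finsupp.single_apply, if_neg (fun h => hlm h.symm), zero_add] at hm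
      exact hm
    have h2 : Finsupp.single m 1 ≤ e' := by
      rw [Finsupp.single_le_iff]; omega
    obtain ⟨c, hc'⟩ := exists_add_of_le h2
    have hcd : c.degree = k := by
      have := congrArg Finsupp.degree hc'
      rw [map_add, he', Finsupp.degree_single] at this
      omega
    have h3 : Finsupp.single l 1 + e' - Finsupp.single m 1 = Finsupp.single l 1 + c := by
      rw [hc', add_left_comm, add_tsub_cancel_left]
    rw [h3, show (X m : R n K) = monomial (Finsupp.single m 1) 1 from rfl]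
    have h4 : (Finsupp.single l 1 + c).degree = k + 1 := by
      rw [map_add, Finsupp.degree_single, hcd, add_comm]
    have h5 := hc (monomial (Finsupp.single l 1) 1)
      (mon_mem (Finsupp.degree_single _ _)) (monomial (Finsupp.single m 1) 1)
      (mon_mem (Finsupp.degree_single _ _)) (monomial c 1) (mon_mem hcd) (av s H e')
      (av_mem s H e') (av s H (Finsupp.single l 1 + c)) (av_mem s H _) ?_ ?_
    · rw [← neg_sub]
      exact s.J.neg_mem h5
    · rw [monomial_mul, one_mul, ← hc']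
      exact av_spec s H e' (mon_mem he')
    · rw [monomial_mul, one_mul]
      exact av_spec s H _ (mon_mem h4)

theorem key : StKEY := by
  intro n k K _ I s H h hh hJ
  by_contra hcon
  push Not at hcon
  have hc : ∀ x ∈ hs n K 1, ∀ y ∈ hs n K 1, ∀ g ∈ hs n K k, ∀ p ∈ hs n K k, ∀ q ∈ hs n K k,
      y * g - s.ω * p ∈ s.J → x * g - s.ω * q ∈ s.J → x * p - y * q ∈ s.J :=
    fun x hx y hy g hg p hp q hq h1 h2 => hcon x hx y hy g hg p hp q hq h1 h2
  have hB := B_spec s H hc
  have hA := A_spec s H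
  obtain ⟨hP, hd⟩ := hh
  have hP' : s.ω * h ∈ s.P := hP
  have key1 : s.P ≤ (s.J.restrictScalars K).comap (B s H) := by
    refine sup_le (Submodule.span_le.2 ?_) (Submodule.span_le.2 ?_)
    · rintro _ ⟨x, hx, f, hf, rfl⟩
      show B s H (x * f) ∈ s.J
      have h1 : f ∈ s.J := (le_sup_left : I ≤ s.J) hf.1
      have h2 := hA f hf.2
      have h3 : s.ω * A s H f ∈ s.J := by
        have := s.J.sub_mem h1 h2
        simpa using this
      have h4 : A s H f ∈ s.J := s.lefschetz _ (A_mem s H f hf.2) h3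
      have h5 := s.J.add_mem (hB x hx f hf.2) (s.J.mul_mem_left x h4)
      simpa using h5
    · rintro _ ⟨i, f, hf, rfl⟩
      show B s H (s.θ i * f) ∈ s.J
      have h4 : s.θ i ∈ s.J := (le_sup_right : _ ≤ s.J) (Ideal.subset_span ⟨i, rfl⟩)
      have h5 := s.J.add_mem (hB _ (s.θ_lin i) f hf) (s.J.mul_mem_right (A s H f) h4)
      simpa using h5
  have h1 : B s H (s.ω * h) ∈ s.J := key1 hP'
  have h2 := hB _ s.ω_lin h hd
  have h3 := hA h hd
  apply hJ
  have h4 := s.J.add_mem h3 (s.J.sub_mem h1 h2)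
  have e : h - s.ω * A s H h + (B s H (s.ω * h) - (B s H (s.ω * h) - s.ω * A s H h)) = h := by
    ring
  rwa [e] at h4

end

end Pool.Agent.K4H49.NS
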